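import Pool.Agent.R959.HTree2

set_option autoImplicit false

/-!
# The weighted Cheeger bound `p_h ≤ 1 / (Φ + 1)` fails

Question Q1 asks whether `p_h(G,Γ) ≤ 1/(Φ_V^w(G) + 1)` for every transitive pair `(G,Γ)`.
We show that it fails, and that no bound `p_h ≤ C/(Φ_V^w + 1)` with a universal constant `C` holds.

The example: `G` is the regular tree of degree `a + b`, with `a = 2`, `b = 2 c^2`, oriented so that
every vertex has `a` out-neighbours and `b` in-neighbours, and `Γ` is the group of all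
orientation preserving automorphisms. Then `Φ_V^w + 1 ≥ a + b - b/a = c^2 + 2` while
`p_h ≥ 1/(2 √(ab)) = 1/(4c)`.

The definitions are in `Pool/Agent/R959/Wt.lean`: `pointwiseTop` (topology of pointwise
convergence), `orb` (`Γ_x y`), `wt` (`w^y(x)`), `wset` (`w(K)`), `bdry` (`∂_V F`), `cheeger`
(`Φ_V^w`), `bern`, `perc`, `openGraph`, `cluster` (Bernoulli bond percolation), `ph` (`p_h`).
-/

namespace Pool.Agent.Results.MP_6c3571_pr.WeightedCheegerFails

open Pool.Agent.R959.Wt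

theorem result :
    ∀ C : ℝ, ∃ (V : Type) (G : SimpleGraph V) (Γ : Subgroup (G ≃g G)),
      Infinite V ∧ G.Connected ∧ (∀ v, (G.neighborSet v).Finite) ∧
      @IsClosed _ (pointwiseTop G) (Γ : Set (G ≃g G)) ∧
      (∀ x y : V, ∃ γ ∈ Γ, γ x = y) ∧
      ∀ o : V, C / (cheeger G Γ o + 1) < ph G Γ o := by
  intro C
  obtain ⟨n, hn⟩ := exists_nat_gt (4 * C)
  haveI : NeZero (2 * (n + 1) ^ 2) := ⟨by positivity⟩
  refine ⟨Pool.Agent.R959.HTree.Vt 2 (2 * (n + 1) ^ 2),
    Pool.Agent.R959.HTree.tree 2 (2 * (n + 1) ^ 2),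
    Pool.Agent.R959.HTree.Gam 2 (2 * (n + 1) ^ 2),
    Infinite.of_injective _ Pool.Agent.R959.HTree.up_inj,
    Pool.Agent.R959.HTree.connected, Pool.Agent.R959.HTree.nhd_finite,
    Pool.Agent.R959.HTree.Gam_closed, ?_, ?_⟩
  · intro x y
    obtain ⟨g, hg, rfl⟩ := Pool.Agent.R959.HTree.exists_map_root x
    obtain ⟨g', hg', rfl⟩ := Pool.Agent.R959.HTree.exists_map_root y
    refine ⟨g' * g⁻¹, Subgroup.mul_mem _ hg' (Subgroup.inv_mem _ hg), ?_⟩
    rw [RelIso.mul_apply, RelIso.inv_apply_self]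
  · intro o
    have hab : 2 ≤ 2 * (n + 1) ^ 2 := by nlinarith [Nat.zero_le n]
    have hc : (0 : ℝ) < (n : ℝ) + 1 := by positivity
    have h1 := Pool.Agent.R959.HTree.cheeger_ge hab o
    have h2 := Pool.Agent.R959.HTree.ph_ge hab ((n : ℝ) + 1) hc
      (by push_cast; field_simp) o
    set c : ℝ := (n : ℝ) + 1 with hcdef
    have h3 : ((2 : ℕ) : ℝ) * c + ((2 * (n + 1) ^ 2 : ℕ) : ℝ) / c = 4 * c := by
      push_cast
      rw [← hcdef]
      field_simp
      ring
    have h4 : ((2 : ℕ) : ℝ) + ((2 * (n + 1) ^ 2 : ℕ) : ℝ) - 1 -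
        ((2 * (n + 1) ^ 2 : ℕ) : ℝ) / ((2 : ℕ) : ℝ) = c ^ 2 + 1 := by
      push_cast
      rw [← hcdef]
      ring
    rw [h3] at h2
    rw [h4] at h1
    refine lt_of_lt_of_le ?_ h2
    rw [div_lt_div_iff₀ (by nlinarith) (by positivity)]
    have h5 : C * (4 * c) < c * c := by
      have : 4 * C < c := by rw [hcdef]; linarith
      nlinarith
    nlinarith

end Pool.Agent.Results.MP_6c3571_pr.WeightedCheegerFails
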